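import Pool.Agent.TH700.TN.Incl
import Pool.Agent.TH700.TN.Upper

/-!
# The Set Cover Conjecture for matrix products, tree tensor networks and sums of products of sums,
with cancellations

An instance is a family of subsets of `Fin n` with at most `r` elements, `n = m r`, given by its
indicator vector `x : Small r n → Bool`; the question `HasCover m x` is whether some `m` sets of the
family cover `Fin n`.

A tree tensor network `Net K V W` has leaves that read one bit each (with a vector in `K ^ W` for
each value of the bit); an inner node combines the vectors of its two children by an arbitrary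
bilinear map. The output is a linear form of the vector of the root. It is linear (a matrix product,
a weighted ordered branching program) if it reads one bit after the other. Every set with exactly
`r` elements is read at most once, the smaller sets may be read arbitrarily often. The size is the
number of nodes times the bond dimension `card W`.

A sum of products of sums `Sps K V s k` is a sum of `s` products of `k` functions, each of which is a
sum of functions of one bit each (for instance an affine form).

Both kinds accept the input if the output is not zero. The weights are arbitrary elements of an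
arbitrary field, so there may be cancellations, as in inclusion-exclusion or in parity branching
programs; the order of the bits (the shape of the tree) is arbitrary.

(1) Random networks with one-sided error: if they accept only families with union `Fin n`, and every
family which contains `m` sets with union `Fin n` is accepted by at least a `2 ^ (- μ)` fraction
of them, then for one of them `(2 ^ (μ + m) (n + 1) size) ^ 3` is at least `(27 / 4) ^ n / 2`, and
if they are linear then `2 ^ (μ + m + r) (n + 1) size` is at least `2 ^ n` for one of them. For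
sums of products of sums `2 ^ (μ + m + r) (n + 1) (number of r-sets + 1) s 2 ^ k` is at least
`2 ^ n` for one of them. The fields may be different.
(2) For every `ε > 0` there is `r` such that for every `A` and all large `m`: every linear network
which decides `HasCover m` has size more than `2 ^ ((1 - ε) n) N ^ A`, where `N` is the number of
bits; every network which decides `HasCover m` has size more than `(27 / 4) ^ ((1 - ε) n / 3) N ^ A`,
where `(27 / 4) ^ (1 / 3) > 1.889`. For every `ε > 0` and `c` there is `r` such that for every `A`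
and all large `m` every sum of `s` products of at most `c m` sums which decides `HasCover m` has
`s > 2 ^ ((1 - ε) n) N ^ A`. So the Set Cover Conjecture holds for linear networks and for sums of
products of sums.
(3) Dynamic programming is a linear network over `ℚ` with the bond dimension `2 ^ n (m + 1)`, which
reads every bit exactly once, and inclusion-exclusion is a sum of `2 ^ n` products of `m` sums over
`ℚ`. So (2) is tight for linear networks and for sums of products of sums.

Proof of (1): the input is a random partition of `Fin n` into `m` sets of `r` elements. Walk down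
the tree to a node which sees about half of them (between one and two thirds if it is not linear).
Let `S` be the union of the sets that it sees. The matrix of the outputs on all mixtures of two
such partitions is zero outside of the blocks with equal `S`, and nonzero on the diagonal, and its
rank is at most the bond dimension. So there are at most `card W` sets `S` for every node, and a
given set `S` is rarely a union of `j` of the `m` sets of a random partition. A product of `k` sums
has rank at most `2 ^ k` for every partition of the bits into two parts.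
-/

set_option autoImplicit false

namespace Pool.Agent.Results.MP_8fffab_lc.CancellingPrograms

open Pool.Agent.W952.SF Pool.Agent.TH700.TN

theorem result :
    -- (1) random programs with one-sided error
    (∀ m r μ : ℕ, 0 < r → 2 ≤ m → ∀ (R : Type) [Fintype R] [Nonempty R]
      (K W : R → Type) [∀ ρ, Field (K ρ)] [∀ ρ, Fintype (W ρ)]
      (T : ∀ ρ, Net (K ρ) (Small r (m * r)) (W ρ)) (a : ∀ ρ, W ρ → K ρ),
      (∀ ρ, ∀ B : Full r (m * r), (T ρ).reads (rs B) ≤ 1) →
      (∀ ρ x, (T ρ).value (a ρ) x ≠ 0 →
        ∀ u : Fin (m * r), ∃ B : Small r (m * r), x B = true ∧ u ∈ B.1) →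
      (∀ x : Small r (m * r) → Bool, HasCover m x →
        Nat.card R ≤ 2 ^ μ * Nat.card {ρ // (T ρ).value (a ρ) x ≠ 0}) →
      (∃ ρ, 27 ^ (m * r) ≤ 2 * 4 ^ (m * r) *
        (2 ^ (μ + m) * (m * r + 1) * ((T ρ).size * Fintype.card (W ρ))) ^ 3) ∧
      ((∀ ρ, (T ρ).Linear) → ∃ ρ, 2 ^ (m * r) ≤
        2 ^ (μ + m + r) * (m * r + 1) * ((T ρ).size * Fintype.card (W ρ)))) ∧
    (∀ m r μ : ℕ, 0 < r → ∀ (R : Type) [Fintype R] [Nonempty R]
      (K : R → Type) [∀ ρ, Field (K ρ)] (s k : R → ℕ)
      (F : ∀ ρ, Sps (K ρ) (Small r (m * r)) (s ρ) (k ρ)),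
      (∀ ρ x, (F ρ).value x ≠ 0 →
        ∀ u : Fin (m * r), ∃ B : Small r (m * r), x B = true ∧ u ∈ B.1) →
      (∀ x : Small r (m * r) → Bool, HasCover m x →
        Nat.card R ≤ 2 ^ μ * Nat.card {ρ // (F ρ).value x ≠ 0}) →
      ∃ ρ, 2 ^ (m * r) ≤ 2 ^ (μ + m + r) * (m * r + 1) *
        ((Fintype.card (Full r (m * r)) + 1) * (s ρ * 2 ^ k ρ))) ∧
    -- (2) asymptotic form
    (∀ ε : ℝ, 0 < ε → ∃ r : ℕ, 1 ≤ r ∧ ∀ A : ℕ, ∃ C : ℕ, ∀ m : ℕ, C ≤ m →
      ∀ (K W : Type) [Field K] [Fintype W] (T : Net K (Small r (m * r)) W) (a : W → K),
        (∀ B : Full r (m * r), T.reads (rs B) ≤ 1) →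
        (∀ x, T.value a x ≠ 0 ↔ HasCover m x) →
          ((27 / 4 : ℝ) ^ (1 / 3 : ℝ)) ^ ((1 - ε) * ((m : ℝ) * r)) *
            (Fintype.card (Small r (m * r)) : ℝ) ^ A < T.size * Fintype.card W) ∧
    (∀ ε : ℝ, 0 < ε → ∃ r : ℕ, 1 ≤ r ∧ ∀ A : ℕ, ∃ C : ℕ, ∀ m : ℕ, C ≤ m →
      ∀ (K W : Type) [Field K] [Fintype W] (T : Net K (Small r (m * r)) W) (a : W → K),
        (∀ B : Full r (m * r), T.reads (rs B) ≤ 1) → T.Linear →
        (∀ x, T.value a x ≠ 0 ↔ HasCover m x) →
          (2 : ℝ) ^ ((1 - ε) * ((m : ℝ) * r)) * (Fintype.card (Small r (m * r)) : ℝ) ^ A <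
            T.size * Fintype.card W) ∧
    (∀ ε : ℝ, 0 < ε → ∀ c : ℕ, ∃ r : ℕ, 1 ≤ r ∧ ∀ A : ℕ, ∃ C : ℕ, ∀ m : ℕ, C ≤ m →
      ∀ (K : Type) [Field K] (s k : ℕ) (F : Sps K (Small r (m * r)) s k), k ≤ c * m →
        (∀ x, F.value x ≠ 0 ↔ HasCover m x) →
          (2 : ℝ) ^ ((1 - ε) * ((m : ℝ) * r)) * (Fintype.card (Small r (m * r)) : ℝ) ^ A < s) ∧
    -- (3) the known algorithms
    (∀ r n m : ℕ, 1 ≤ m → ∃ (W : Type) (_ : Fintype W) (T : Net ℚ (Small r n) W) (a : W → ℚ),
      Fintype.card W = 2 ^ n * (m + 1) ∧ T.Linear ∧ (∀ v, T.reads v = 1) ∧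
        T.size = 2 * Fintype.card (Small r n) - 1 ∧
        ∀ x, T.value a x ≠ 0 ↔ HasCover m x) ∧
    (∀ r n m : ℕ, 1 ≤ n → ∃ F : Sps ℚ (Small r n) (2 ^ n) m,
      ∀ x, F.value x ≠ 0 ↔ HasCover m x) := by
  refine ⟨fun m r μ hr hm R _ _ K W _ _ T a h1 hs hc => ⟨?_, fun hl => ?_⟩,
    fun m r μ hr R _ _ K _ s k F hs hc => sps_final m r μ hr R K s k F hs hc,
    tree_asy, linear_asy, sps_asy, fun r n m hm => ?_, ie_upper⟩
  · exact tree_final m r μ hr hm R K W T a h1 hs hc
  · exact linear_final m r μ hr hm R K W T a h1 hl hs hc
  · obtain ⟨T, a, h⟩ := upper r n m hm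
    exact ⟨St n m, inferInstance, T, a, by simp, h⟩

end Pool.Agent.Results.MP_8fffab_lc.CancellingPrograms
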