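import Pool.Agent.Results.MP_8fffab_lc.PureDPTimeSpace
import Pool.Agent.TH706.SK.Eps

/-!
# Set cover by pure dynamic programs with few registers and a stack of unlimited height

The known algorithms for set cover are the dynamic programs over all subsets, with about `2 ^ n` steps
and `2 ^ n` registers, and the recursive ones (guess the union of one half of the cover), with
polynomial space and about `4 ^ n` steps.  The recursion needs a stack.  The starting result
`PureDPTimeSpace` shows that `(4 - ε) ^ n` steps are needed with `2 ^ (δ n)` registers.  Here the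
programs have in addition a stack (pushdown store) of unlimited height on which arbitrary
intermediate results can be stored, one per step, so up to `(4 - ε) ^ n` of them: this does not
help, `(4 - ε) ^ n` steps are still needed.  So a fast algorithm needs exponentially many
intermediate results with random access; storing exponentially many on a stack is not enough.

*Proof.*  Elimination of the stack (`Pool.Agent.TH706.SK.simulate_eps`): a program with `K` registers,
a stack and `L` steps can be replaced by one with `C K (log L + 1)` registers, `C L ^ (1 + η)` steps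
and no stack.
-/

set_option autoImplicit false

namespace Pool.Agent.Results.MP_8fffab_lc.FourToNWithStack

open Finset Filter
open Pool.Agent.H564R3.PW (Instr exec)
open Pool.Agent.TH706.SK (SInstr sexec simulate_eps)
open Pool.Agent.Results.MP_8fffab_lc.PureDPTimeSpace (RSet Covers SolvesSetCover)
open scoped NNReal

/-- the value of the output register of a program with a stack for the instance `F`: the input of a
set is `1` if it is in `F` and infinite otherwise -/
noncomputable def value {n r : ℕ} {ρ : Type} [DecidableEq ρ]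
    (p : List (SInstr (Tropical (WithTop ℝ≥0)) (RSet n r) ρ)) (o : ρ) (F : Finset (RSet n r)) :
    WithTop ℝ≥0 :=
  Tropical.untrop
    (sexec (fun x => if x ∈ F then Tropical.trop ((1 : ℝ≥0) : WithTop ℝ≥0) else 0) p o)

/-- The (min,+) program `p` with a stack solves set cover for instances of sets with `r` elements: the
output is the least number of members of `F` which cover everything (infinite if there are none). -/
def StackSolvesSetCover {n r : ℕ} {ρ : Type} [DecidableEq ρ]
    (p : List (SInstr (Tropical (WithTop ℝ≥0)) (RSet n r) ρ)) (o : ρ) : Prop :=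
  ∀ F : Finset (RSet n r),
    (∀ G ⊆ F, Covers G → value p o F ≤ ((G.card : ℝ≥0) : WithTop ℝ≥0)) ∧
    (value p o F ≠ ⊤ → ∃ G ⊆ F, Covers G ∧ value p o F = ((G.card : ℝ≥0) : WithTop ℝ≥0))

/-- For every `ε` in `(0, 4)` there are `r ≥ 1` and `δ > 0` such that for all large `n` divisible by
`r`: each (min,+) program with at most `2 ^ (δ n)` registers and a stack of unlimited height which
solves set cover with sets of `r` elements has at least `(4 - ε) ^ n` instructions. -/
theorem result (ε : ℝ) (hε : 0 < ε) (hε' : ε < 4) :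
    ∃ (r : ℕ) (δ : ℝ) (n₀ : ℕ), 1 ≤ r ∧ 0 < δ ∧ ∀ n ≥ n₀, r ∣ n →
      ∀ (ρ : Type) [Fintype ρ] [DecidableEq ρ]
        (p : List (SInstr (Tropical (WithTop ℝ≥0)) (RSet n r) ρ)) (o : ρ),
        StackSolvesSetCover p o →
        (Fintype.card ρ : ℝ) ≤ 2 ^ (δ * n) → (4 - ε) ^ n ≤ p.length := by
  obtain ⟨r, δ, n₀, hr, hδ, hmain⟩ :=
    Pool.Agent.Results.MP_8fffab_lc.PureDPTimeSpace.result (ε / 2) (by positivity) (by linarith)
  obtain ⟨b, hb⟩ : ∃ b : ℝ, b = 4 - ε := ⟨_, rfl⟩
  have hb0 : 0 < b := by rw [hb]; linarith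
  obtain ⟨η, hη, hη2⟩ : ∃ η : ℝ, 0 < η ∧ b ^ (1 + η) < 4 - ε / 2 := by
    have h1 : ContinuousAt (fun η : ℝ => b ^ (1 + η)) 0 := by
      apply ContinuousAt.rpow continuousAt_const (by fun_prop)
      exact Or.inl hb0.ne'
    have h2 : (fun η : ℝ => b ^ (1 + η)) 0 < 4 - ε / 2 := by
      simp only [add_zero, Real.rpow_one]
      rw [hb]
      linarith
    have h3 : ∀ᶠ η : ℝ in nhds 0, b ^ (1 + η) < 4 - ε / 2 := h1.eventually (gt_mem_nhds h2)
    obtain ⟨t, ht, h4⟩ := Metric.eventually_nhds_iff.1 h3
    refine ⟨t / 2, by positivity, h4 ?_⟩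
    rw [Real.dist_eq, sub_zero, abs_of_pos (by positivity)]
    linarith
  obtain ⟨C, hC⟩ := simulate_eps η hη
  obtain ⟨a, ha⟩ : ∃ a : ℝ, a = b ^ (1 + η) := ⟨_, rfl⟩
  have ha0 : 0 < a := by rw [ha]; exact Real.rpow_pos_of_pos hb0 _
  have e1 : ∀ᶠ n : ℕ in atTop, (C : ℝ) * (2 * n + 1) ≤ 2 ^ (δ / 2 * n) := by
    have h1 : Tendsto (fun n : ℕ => (n : ℝ) ^ 1 / ((2 : ℝ) ^ (δ / 2)) ^ n) atTop (nhds 0) :=
      tendsto_pow_const_div_const_pow_of_one_lt 1
        (Real.one_lt_rpow (by norm_num) (by positivity))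
    have h2 : ∀ᶠ n : ℕ in atTop, (n : ℝ) ^ 1 / ((2 : ℝ) ^ (δ / 2)) ^ n < 1 / (3 * (C + 1)) :=
      h1.eventually (gt_mem_nhds (by positivity))
    filter_upwards [h2, eventually_ge_atTop 1] with n hn hn1
    have hn2 : (1 : ℝ) ≤ n := by exact_mod_cast hn1
    have h3 : (2 : ℝ) ^ (δ / 2 * n) = ((2 : ℝ) ^ (δ / 2)) ^ n := by
      rw [Real.rpow_mul (by norm_num), Real.rpow_natCast]
    rw [h3]
    rw [pow_one, div_lt_div_iff₀ (by positivity) (by positivity)] at hn
    have hC0 : (0 : ℝ) ≤ C := Nat.cast_nonneg _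
    nlinarith
  have e2 : ∀ᶠ n : ℕ in atTop, (C : ℝ) * a ^ n < (4 - ε / 2) ^ n := by
    have h0 : 0 < 4 - ε / 2 := by linarith
    have h1 : Tendsto (fun n : ℕ => (a / (4 - ε / 2)) ^ n) atTop (nhds 0) :=
      tendsto_pow_atTop_nhds_zero_of_lt_one (by positivity) (by
        rw [div_lt_one h0, ha]
        exact hη2)
    have h2 : ∀ᶠ n : ℕ in atTop, (a / (4 - ε / 2)) ^ n < 1 / (C + 1) :=
      h1.eventually (gt_mem_nhds (by positivity))
    filter_upwards [h2] with n hn
    rw [div_pow, div_lt_div_iff₀ (by positivity) (by positivity)] at hn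
    have h3 : 0 < a ^ n := by positivity
    nlinarith
  obtain ⟨n₁, hn₁⟩ := eventually_atTop.1 (e1.and e2)
  refine ⟨r, δ / 2, max n₀ n₁, hr, by positivity, fun n hn hrn ρ _ _ p o h hK => ?_⟩
  by_contra hlt
  push Not at hlt
  rw [← hb] at hlt
  obtain ⟨g1, g2⟩ := hn₁ n (le_trans (le_max_right _ _) hn)
  obtain ⟨S, z, q, hS, hq, hqv⟩ := hC (Tropical (WithTop ℝ≥0)) (RSet n r) ρ p
  have hlog : Nat.log 2 p.length ≤ 2 * n := by
    rcases Nat.eq_zero_or_pos p.length with h0 | h0
    · rw [h0]; simp
    · have h1 : (p.length : ℝ) < 4 ^ n := by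
        refine hlt.trans_le (pow_le_pow_left₀ hb0.le ?_ n)
        rw [hb]
        linarith
      have h2 : p.length < 4 ^ n := by exact_mod_cast h1
      have h3 : p.length < 2 ^ (2 * n) := by
        rw [pow_mul]
        exact h2
      exact (Nat.log_lt_of_lt_pow (by omega) h3).le
  have hsol : SolvesSetCover q (o, z) := by
    intro F
    have h1 : Pool.Agent.Results.MP_8fffab_lc.PureDPTimeSpace.value q (o, z) F = value p o F := by
      unfold Pool.Agent.Results.MP_8fffab_lc.PureDPTimeSpace.value value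
      rw [hqv]
    rw [h1]
    exact h F
  have hcard : (Fintype.card (ρ × Fin S) : ℝ) ≤ 2 ^ (δ * n) := by
    rw [Fintype.card_prod, Fintype.card_fin]
    have h1 : (S : ℝ) ≤ C * (2 * n + 1) := by
      have : S ≤ C * (2 * n + 1) := hS.trans (Nat.mul_le_mul_left _ (by omega))
      exact_mod_cast this
    have h2 : (2 : ℝ) ^ (δ * n) = 2 ^ (δ / 2 * n) * 2 ^ (δ / 2 * n) := by
      rw [← Real.rpow_add (by norm_num)]
      congr 1
      ring
    rw [h2]
    push_cast
    exact mul_le_mul hK (h1.trans g1) (Nat.cast_nonneg _) (by positivity)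
  have h4 := hmain n (le_trans (le_max_left _ _) hn) hrn (ρ × Fin S) q (o, z) hsol hcard
  have h5 : (q.length : ℝ) ≤ C * a ^ n := by
    refine hq.trans ?_
    apply mul_le_mul_of_nonneg_left _ (Nat.cast_nonneg _)
    calc (p.length : ℝ) ^ (1 + η) ≤ (b ^ n) ^ (1 + η) :=
          Real.rpow_le_rpow (Nat.cast_nonneg _) hlt.le (by linarith)
      _ = a ^ n := by
          rw [ha, ← Real.rpow_natCast, ← Real.rpow_natCast, ← Real.rpow_mul hb0.le,
            ← Real.rpow_mul hb0.le, mul_comm]
  linarith

end Pool.Agent.Results.MP_8fffab_lc.FourToNWithStack
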