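import Pool.Agent.TH837.SC.Sem

/-!
# Pure dynamic programs for set cover with the factor `1 + δ`

A (min,+) program (a pure dynamic program, a tropical circuit) computes functions of the weights of
the `k`-element subsets of `Fin n`, one after the other; each is an input, a constant, or the minimum
or the sum of two functions computed before. `N` is the number of these sets. If `k ≥ 24 / ε` then
randomised (min,+) programs which approximate the number of sets in a smallest cover within the
factor `1 + ε / 16`, with a success probability of only `2 ^ (- ε n / 8)`, need more than
`2 ^ ((1 - ε) n) N ^ A` instructions, for every `A` and all large `n` divisible by `k`.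

Proof: the monomial of the program which is small on a partition of `Fin n` into `m = n / k` blocks
reads at most `(1 + δ) m` blocks. For a gate `l` let `X l` be the set of the points which are covered
by all monomials of `l`. If the monomial of a partition passes through `l`, then its part below `l`
covers `X l`, and the rest of it covers the complement of `X l`. At the last gate with
`|X l| > n / 2` the sets of the two inputs give a partition of `Fin n` into three parts with at most
(about) `n / 2` points each, and all but `δ m` blocks of the partition lie in one part; this has
probability at most `poly (n) * 6 ^ m * 3 ^ (δ n) / 2 ^ n` for a random partition.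
-/

set_option autoImplicit false

namespace Pool.Agent.Results.MP_8fffab_lc.NearOptimalPureDP

open Pool.Agent.TH837.SC
open scoped ENNReal

theorem result (ε : ℝ) (hε : 0 < ε) (k : ℕ) (hk : 24 / ε ≤ k) (A : ℕ) :
    ∃ M : ℕ, ∀ m ≥ M, ∀ n : ℕ, n = m * k → ∀ (R : Type) [Fintype R] [Nonempty R]
      (f : R → (KSet k n → ℝ≥0∞) → ℝ≥0∞), RandApprox (1 + ε / 16) (2 ^ (-(ε / 8 * n))) f →
      ∀ s : ℕ, (∀ r, Computes (f r) s) →
        (2 : ℝ) ^ ((1 - ε) * n) * (Fintype.card (KSet k n) : ℝ) ^ A < s := by
  obtain ⟨M, hM⟩ := asy1 ε hε k hk A
  refine ⟨M, fun m hm n hn R _ _ f hf s hs => ?_⟩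
  obtain ⟨L, Z, hL, hReq, hZ⟩ := rand (by positivity) hn hf hs
  exact (hM m hm n hn L Z _ hReq le_rfl hZ).trans_le (by exact_mod_cast hL)

end Pool.Agent.Results.MP_8fffab_lc.NearOptimalPureDP
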