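import Pool.Agent.TH837.SC.Upper

/-!
# How well pure dynamic programs approximate set cover

A (min,+) program (a pure dynamic program, a tropical circuit) computes functions of the weights of
the `k`-element subsets of `Fin n`, one after the other; each is an input, a constant, or the minimum
or the sum of two functions computed before. `opt w` is the least weight of a family of `k`-element
sets with union `Fin n`, and `N` is the number of these sets.

(1) Randomised (min,+) programs with the factor `ρ` need `2 ^ (n / (300 ρ))` instructions if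
`1 ≤ ρ ≤ k / 4` and `n / k` is larger than an absolute constant.
(2) For every `k` and every `ρ < k` they need `2 ^ (γ n)` instructions for large `n`, with
`γ = γ (k, ρ) > 0`.
(3) For every `r` there is a deterministic program with `2 r N 2 ^ ⌈n / r⌉ + N + r + 2` instructions
which has the factor `r` for all weights.
(4) The factor `k` is achieved with `(k + 1) N + n + 2` instructions.

Proof of the lower bounds: the monomial of the program which is small on a partition of `Fin n` into
`m = n / k` blocks reads at most `ρ m` blocks. For a gate `l` let `X l` be the set of the points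
which are covered by all monomials of `l`. If the monomial of a partition passes through `l` and
then `l'` (below `l`), then the part of it between `l` and `l'` covers `X l \ X l'`. The proof tree
is cut into a bounded number of pieces with few leaves (each piece lies between two gates); one
piece covers many more points than it has leaves, and this is exponentially unlikely for a random
partition and a fixed set `X l \ X l'` of points.
-/

set_option autoImplicit false

namespace Pool.Agent.Results.MP_8fffab_lc.PureDPTradeoff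

open Pool.Agent.TH837.SC
open scoped ENNReal

theorem result :
    (∃ M : ℕ, ∀ m ≥ M, ∀ (k : ℕ) (ρ : ℝ), 1 ≤ ρ → 4 * ρ ≤ k → ∀ n : ℕ, n = m * k →
      ∀ (R : Type) [Fintype R] [Nonempty R]
        (f : R → (KSet k n → ℝ≥0∞) → ℝ≥0∞), RandApprox ρ (2 ^ (-((n : ℝ) / (300 * ρ)))) f →
        ∀ s : ℕ, (∀ r, Computes (f r) s) → (2 : ℝ) ^ ((n : ℝ) / (300 * ρ)) ≤ s) ∧
    (∀ (k : ℕ) (ρ : ℝ), 1 ≤ ρ → ρ < k → ∃ γ : ℝ, 0 < γ ∧ ∃ M : ℕ,
      ∀ m ≥ M, ∀ n : ℕ, n = m * k → ∀ (R : Type) [Fintype R] [Nonempty R]
        (f : R → (KSet k n → ℝ≥0∞) → ℝ≥0∞), RandApprox ρ (2 ^ (-(γ * n))) f →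
        ∀ s : ℕ, (∀ r, Computes (f r) s) → (2 : ℝ) ^ (γ * n) ≤ s) ∧
    (∀ k n r : ℕ, 1 ≤ r → ∃ f : (KSet k n → ℝ≥0∞) → ℝ≥0∞,
      Computes f (r * (2 ^ ((n + r - 1) / r) * (2 * Fintype.card (KSet k n))) +
        Fintype.card (KSet k n) + r + 2) ∧ ∀ w, opt w ≤ f w ∧ f w ≤ r * opt w) ∧
    (∀ k n : ℕ, 1 ≤ k → ∃ f : (KSet k n → ℝ≥0∞) → ℝ≥0∞,
      Computes f ((k + 1) * Fintype.card (KSet k n) + n + 2) ∧
        ∀ w, opt w ≤ f w ∧ f w ≤ k * opt w) := by
  refine ⟨?_, fun k ρ hρ hρk => ?_, factor_r, fun k n hk => ?_⟩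
  · obtain ⟨M, hM⟩ := asy3
    refine ⟨M, fun m hm k ρ hρ hρk n hn R _ _ f hf s hs => ?_⟩
    obtain ⟨L, Z, hL, hReq, hZ⟩ := rand (by positivity) hn hf hs
    exact (hM m hm k ρ hρ hρk n hn L Z _ hReq le_rfl hZ).trans (by exact_mod_cast hL)
  · obtain ⟨γ, hγ, M, hM⟩ := asy2 k ρ hρ hρk
    refine ⟨γ, hγ, M, fun m hm n hn R _ _ f hf s hs => ?_⟩
    obtain ⟨L, Z, hL, hReq, hZ⟩ := rand (by positivity) hn hf hs
    exact (hM m hm n hn L Z _ hReq le_rfl hZ).trans (by exact_mod_cast hL)
  · exact ⟨tot, computes_tot, fun w => ⟨opt_le_tot w, tot_le_opt hk w⟩⟩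

end Pool.Agent.Results.MP_8fffab_lc.PureDPTradeoff
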